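import Pool.Agent.H.MP_6d4084_an.A

set_option autoImplicit false

open Polynomial Filter Topology

namespace Pool.Agent.Results.MP_6d4084_an.Sharp

/-- The Bombieri supremum norm. -/
noncomputable def bomb (p : ℂ[X]) : ℝ :=
  ⨆ j : Fin (p.natDegree + 1), ‖p.coeff j‖ / (p.natDegree.choose j : ℝ)

/-- The maximum modulus on the closed unit disc. -/
noncomputable def dn (q : ℂ[X]) : ℝ := ⨆ z : Metric.closedBall (0 : ℂ) 1, ‖q.eval (z : ℂ)‖

/-- The set of ratios whose supremum is `S n`. -/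
def ratios (n : ℕ) : Set ℝ :=
  {r | ∃ p q : ℂ[X], p.Monic ∧ p.natDegree = n ∧ q.Monic ∧ q ∣ p ∧ r = dn q / bomb p}

noncomputable def S (n : ℕ) : ℝ := sSup (ratios n)

noncomputable def K : ℝ := Real.exp ((2 * Real.pi)⁻¹ *
  ∫ t in (0 : ℝ)..(2 * Real.pi), Real.log (1 + ‖1 + Complex.exp (t * Complex.I)‖))

open Pool.Agent.H.MP_6d4084_an

lemma K_eq : K = Real.exp ((2 * Real.pi)⁻¹ * LK) := by
  rw [K, LK, intervalIntegral.integral_of_le (by positivity)]
  simp [circleMap]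

lemma K_pos : 0 < K := Real.exp_pos _

lemma le_bomb (p : ℂ[X]) (j : ℕ) (hj : j ≤ p.natDegree) :
    ‖p.coeff j‖ ≤ bomb p * p.natDegree.choose j := by
  have h : (0 : ℝ) < p.natDegree.choose j := by exact_mod_cast Nat.choose_pos hj
  rw [← div_le_iff₀ h]
  exact le_ciSup (f := fun j : Fin (p.natDegree + 1) => ‖p.coeff j‖ / (p.natDegree.choose j : ℝ))
    (Set.finite_range _).bddAbove ⟨j, Nat.lt_succ_of_le hj⟩

lemma bomb_one (p : ℂ[X]) (hp : p.Monic) : 1 ≤ bomb p := by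
  simpa [hp.coeff_natDegree] using le_bomb p _ le_rfl

lemma ub (n : ℕ) : ∀ r ∈ ratios n, r ≤ K ^ n := by
  rintro r ⟨p, q, hp, rfl, hq, hd, rfl⟩
  rw [div_le_iff₀ (lt_of_lt_of_le one_pos (bomb_one p hp)), K_eq]
  haveI : Nonempty (Metric.closedBall (0 : ℂ) 1) := ⟨⟨0, by simp⟩⟩
  exact ciSup_le fun z => upper p q hp hq hd _ (le_bomb p) z (mem_closedBall_zero_iff.1 z.2)

lemma lb (n : ℕ) (hn : 0 < n) : ∃ r ∈ ratios n, K ^ n / (n + 1) ≤ r := by
  obtain ⟨p, q, hp, rfl, hq, hd, hc, h⟩ := lower' n hn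
  refine ⟨_, ⟨p, q, hp, rfl, hq, hd, rfl⟩, ?_⟩
  have h1 : bomb p ≤ 1 := ciSup_le fun j => by
    have h : (0 : ℝ) < p.natDegree.choose j := by
      exact_mod_cast Nat.choose_pos (Nat.lt_succ_iff.1 j.2)
    rw [div_le_one h]
    exact hc j
  rw [le_antisymm h1 (bomb_one p hp), div_one, K_eq]
  refine h.trans (le_ciSup (f := fun z : Metric.closedBall (0 : ℂ) 1 => ‖q.eval (z : ℂ)‖)
    ⟨Real.exp ((2 * Real.pi)⁻¹ * LK) ^ p.natDegree * bomb p, ?_⟩ ⟨1, by simp⟩)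
  rintro _ ⟨z, rfl⟩
  exact upper p q hp hq hd _ (le_bomb p) z (mem_closedBall_zero_iff.1 z.2)

theorem result : (∀ n : ℕ, 1 ≤ n → (ratios n).Nonempty ∧ BddAbove (ratios n) ∧
      K ^ n / (n + 1) ≤ S n ∧ S n ≤ K ^ n) ∧
    Tendsto (fun n : ℕ => S n ^ (1 / (n : ℝ))) atTop (𝓝 K) ∧
    limsup (fun n : ℕ => S n ^ (1 / (n : ℝ))) atTop = K := by
  have h0 : ∀ n : ℕ, 1 ≤ n → (ratios n).Nonempty ∧ BddAbove (ratios n) ∧
      K ^ n / (n + 1) ≤ S n ∧ S n ≤ K ^ n := by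
    intro n hn
    obtain ⟨r, hr, h⟩ := lb n hn
    exact ⟨⟨r, hr⟩, ⟨_, ub n⟩, h.trans (le_csSup ⟨_, ub n⟩ hr), csSup_le ⟨r, hr⟩ (ub n)⟩
  have h1 : Tendsto (fun n : ℕ => S n ^ (1 / (n : ℝ))) atTop (𝓝 K) := by
    have h2 : Tendsto (fun n : ℕ => ((n : ℝ) + 1) ^ (1 / (n : ℝ))) atTop (𝓝 1) := by
      have h3 := (tendsto_rpow_div_mul_add 1 1 (-1) zero_ne_one).comp
        (tendsto_atTop_add_const_right atTop (1 : ℝ) tendsto_natCast_atTop_atTop)
      refine h3.congr fun n => ?_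
      simp
    have h4 : Tendsto (fun n : ℕ => K / ((n : ℝ) + 1) ^ (1 / (n : ℝ))) atTop (𝓝 K) := by
      have h5 := (tendsto_const_nhds (x := K)).div h2 one_ne_zero
      rw [div_one] at h5
      exact h5
    refine tendsto_of_tendsto_of_tendsto_of_le_of_le' h4 tendsto_const_nhds ?_ ?_
    · filter_upwards [eventually_ge_atTop 1] with n hn
      have hK : (K ^ n) ^ (1 / (n : ℝ)) = K := by
        rw [one_div]
        exact Real.pow_rpow_inv_natCast K_pos.le (by omega)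
      have := K_pos
      calc _ = (K ^ n / (n + 1)) ^ (1 / (n : ℝ)) := by
            rw [Real.div_rpow (by positivity) (by positivity), hK]
        _ ≤ _ := Real.rpow_le_rpow (by positivity) (h0 n hn).2.2.1 (by positivity)
    · filter_upwards [eventually_ge_atTop 1] with n hn
      have hK : (K ^ n) ^ (1 / (n : ℝ)) = K := by
        rw [one_div]
        exact Real.pow_rpow_inv_natCast K_pos.le (by omega)
      have := K_pos
      rw [← hK]
      exact Real.rpow_le_rpow (le_trans (by positivity) (h0 n hn).2.2.1) (h0 n hn).2.2.2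
        (by positivity)
  exact ⟨h0, h1, h1.limsup_eq⟩

end Pool.Agent.Results.MP_6d4084_an.Sharp
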